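import Pool.Agent.BCS.Stmts

/-!
# Row TZR: polynomials in `z`, `z̄` are `∂/∂z̄` derivatives of functions in `V0`
-/

noncomputable section

open scoped ContDiff Topology ComplexConjugate
open Set MeasureTheory

namespace Pool.Agent.BCS.H51

open Pool.Agent.BCS

/-- `f` is differentiable at `z` and `∂f/∂z̄ = d` -/
def DB (f : ℂ → ℂ) (z d : ℂ) : Prop :=
  ∃ L : ℂ →L[ℝ] ℂ, HasFDerivAt f L z ∧ (1 / 2 : ℂ) * (L 1 + Complex.I * L Complex.I) = d

theorem DB.dzb_eq {f : ℂ → ℂ} {z d : ℂ} (h : DB f z d) : dzb f z = d := by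
  obtain ⟨L, h1, h2⟩ := h
  unfold dzb dx dy
  rw [h1.fderiv]
  exact h2

theorem DB.add {f g : ℂ → ℂ} {z d e : ℂ} (hf : DB f z d) (hg : DB g z e) :
    DB (fun z => f z + g z) z (d + e) := by
  obtain ⟨L, h1, h2⟩ := hf
  obtain ⟨L', h3, h4⟩ := hg
  refine ⟨L + L', h1.add h3, ?_⟩
  rw [← h2, ← h4]
  simp only [add_apply]
  ring

theorem DB.const_mul {f : ℂ → ℂ} {z d : ℂ} (c : ℂ) (hf : DB f z d) :
    DB (fun z => c * f z) z (c * d) := by
  obtain ⟨L, h1, h2⟩ := hf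
  refine ⟨c • L, h1.const_mul c, ?_⟩
  rw [← h2]
  simp only [smul_apply, smul_eq_mul]
  ring

theorem DB.zero (z : ℂ) : DB (fun _ => 0) z 0 :=
  ⟨0, hasFDerivAt_const 0 z, by simp⟩

theorem DB.mul {f g : ℂ → ℂ} {z d e : ℂ} (hf : DB f z d) (hg : DB g z e) :
    DB (fun z => f z * g z) z (f z * e + g z * d) := by
  obtain ⟨L, h1, h2⟩ := hf
  obtain ⟨L', h3, h4⟩ := hg
  refine ⟨f z • L' + g z • L, h1.mul h3, ?_⟩
  rw [← h2, ← h4]
  simp only [add_apply, smul_apply, smul_eq_mul]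
  ring

theorem DB.pow (a : ℕ) (z : ℂ) : DB (fun z => z ^ a) z 0 := by
  refine ⟨_, ((hasDerivAt_pow a z).hasFDerivAt).restrictScalars ℝ, ?_⟩
  simp only [ContinuousLinearMap.coe_restrictScalars', ContinuousLinearMap.toSpanSingleton_apply,
    smul_eq_mul]
  linear_combination (1 / 2 : ℂ) * (a : ℂ) * z ^ (a - 1) * Complex.I_mul_I

theorem DB.conj_pow (b : ℕ) (z : ℂ) :
    DB (fun z => conj z ^ b) z ((b : ℂ) * conj z ^ (b - 1)) := by
  have h1 : HasFDerivAt (fun z : ℂ => conj z) (Complex.conjCLE : ℂ →L[ℝ] ℂ) z :=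
    Complex.conjCLE.hasFDerivAt
  have h2 := ((hasDerivAt_pow b (conj z)).hasFDerivAt).restrictScalars ℝ
  refine ⟨_, HasFDerivAt.comp z h2 h1, ?_⟩
  simp only [ContinuousLinearMap.coe_comp, Function.comp_apply,
    ContinuousLinearMap.coe_restrictScalars', ContinuousLinearMap.toSpanSingleton_apply,
    smul_eq_mul, ContinuousLinearEquiv.coe_coe, Complex.conjCLE_apply, map_one, Complex.conj_I]
  linear_combination (-(1 / 2 : ℂ)) * (b : ℂ) * conj z ^ (b - 1) * Complex.I_mul_I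

theorem cd_pow (a : ℕ) : ContDiff ℝ ∞ (fun z : ℂ => z ^ a) := contDiff_id.pow a

theorem cd_conj_pow (a : ℕ) : ContDiff ℝ ∞ (fun z : ℂ => conj z ^ a) := by
  have h : ContDiff ℝ ∞ (fun z : ℂ => conj z) := Complex.conjCLE.contDiff
  exact h.pow a

/-- `u` is in `V0` and `∂u/∂z̄ = g` -/
def TG (u g : ℂ → ℂ) : Prop := V0 u ∧ ∀ z, DB u z (g z)

theorem TG.zero : TG (fun _ => 0) (fun _ => 0) :=
  ⟨⟨contDiff_const, fun ζ _ => by simp⟩, fun z => DB.zero z⟩

theorem TG.add {u v g h : ℂ → ℂ} (hu : TG u g) (hv : TG v h) :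
    TG (fun z => u z + v z) (fun z => g z + h z) := by
  refine ⟨⟨hu.1.1.add hv.1.1, fun ζ hζ => ?_⟩, fun z => (hu.2 z).add (hv.2 z)⟩
  rw [mul_add, Complex.add_re, hu.1.2 ζ hζ, hv.1.2 ζ hζ, add_zero]

theorem TG.sum (N : ℕ) (g : ℕ → ℂ → ℂ) (h : ∀ a, ∃ u, TG u (g a)) :
    ∃ u, TG u (fun z => ∑ a ∈ Finset.range N, g a z) := by
  induction N with
  | zero =>
    refine ⟨fun _ => 0, ?_⟩
    simp only [Finset.range_zero, Finset.sum_empty]
    exact TG.zero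
  | succ N ih =>
    obtain ⟨u, hu⟩ := ih
    obtain ⟨v, hv⟩ := h N
    refine ⟨fun z => u z + v z, ?_⟩
    simp only [Finset.sum_range_succ]
    exact hu.add hv

theorem mul_conj_one {ζ : ℂ} (h : ‖ζ‖ = 1) : ζ * conj ζ = 1 := by
  rw [Complex.mul_conj, Complex.normSq_eq_norm_sq, h]
  simp

/-- one monomial -/
theorem TG.mono (a b : ℕ) (c : ℂ) : ∃ u, TG u (fun z => c * z ^ a * conj z ^ b) := by
  have hb : ((b : ℂ) + 1) ≠ 0 := by
    have : ((b + 1 : ℕ) : ℂ) ≠ 0 := Nat.cast_ne_zero.2 (by omega)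
    simpa using this
  have hcd : ContDiff ℝ ∞ (fun z : ℂ => c / (b + 1) * (z ^ a * conj z ^ (b + 1))) :=
    contDiff_const.mul ((cd_pow a).mul (cd_conj_pow (b + 1)))
  have hD : ∀ z, DB (fun z : ℂ => c / (b + 1) * (z ^ a * conj z ^ (b + 1))) z
      (c * z ^ a * conj z ^ b) := by
    intro z
    have h1 := ((DB.pow a z).mul (DB.conj_pow (b + 1) z)).const_mul (c / (b + 1))
    have e : c / ((b : ℂ) + 1) * (z ^ a * (((b + 1 : ℕ) : ℂ) * conj z ^ (b + 1 - 1)) +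
        conj z ^ (b + 1) * 0) = c * z ^ a * conj z ^ b := by
      rw [Nat.add_sub_cancel]
      push_cast
      field_simp
      ring
    rw [e] at h1
    exact h1
  rcases Nat.lt_or_ge b a with hab | hab
  · obtain ⟨k, rfl⟩ : ∃ k, a = b + 1 + k := ⟨a - (b + 1), by omega⟩
    refine ⟨fun z => c / (b + 1) * (z ^ (b + 1 + k) * conj z ^ (b + 1)) +
      (-(c / (b + 1))) * z ^ k, ⟨hcd.add (contDiff_const.mul (cd_pow k)), ?_⟩, ?_⟩
    · intro ζ hζ
      have h1 := mul_conj_one hζ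
      have h2 : (ζ ^ 2) ^ (b + 1 + k) * conj (ζ ^ 2) ^ (b + 1) = (ζ ^ 2) ^ k := by
        have h4 : ζ ^ 2 * conj (ζ ^ 2) = 1 := by rw [map_pow, ← mul_pow, h1, one_pow]
        calc (ζ ^ 2) ^ (b + 1 + k) * conj (ζ ^ 2) ^ (b + 1)
            = (ζ ^ 2 * conj (ζ ^ 2)) ^ (b + 1) * (ζ ^ 2) ^ k := by
              rw [mul_pow, pow_add]
              ring
          _ = (ζ ^ 2) ^ k := by rw [h4, one_pow, one_mul]
      have h3 : ζ * (c / (b + 1) * ((ζ ^ 2) ^ (b + 1 + k) * conj (ζ ^ 2) ^ (b + 1)) +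
          (-(c / (b + 1))) * (ζ ^ 2) ^ k) = 0 := by
        rw [h2]
        ring
      rw [h3]
      rfl
    · intro z
      have h1 := (hD z).add ((DB.pow k z).const_mul (-(c / (b + 1))))
      simpa using h1
  · obtain ⟨k, rfl⟩ : ∃ k, b = a + k := ⟨b - a, by omega⟩
    refine ⟨fun z => c / ((a + k : ℕ) + 1) * (z ^ a * conj z ^ (a + k + 1)) +
      (-(conj (c / ((a + k : ℕ) + 1)))) * z ^ k, ⟨hcd.add (contDiff_const.mul (cd_pow k)), ?_⟩, ?_⟩
    · intro ζ hζ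
      have h1 := mul_conj_one hζ
      have h4 : ζ ^ 2 * conj (ζ ^ 2) = 1 := by rw [map_pow, ← mul_pow, h1, one_pow]
      set d : ℂ := c / ((a + k : ℕ) + 1) with hd
      have h2 : ζ * (d * ((ζ ^ 2) ^ a * conj (ζ ^ 2) ^ (a + k + 1))) =
          conj (conj d * (ζ * (ζ ^ 2) ^ k)) := by
        calc ζ * (d * ((ζ ^ 2) ^ a * conj (ζ ^ 2) ^ (a + k + 1)))
            = (ζ ^ 2 * conj (ζ ^ 2)) ^ a * (d * (ζ * conj (ζ ^ 2)) * conj (ζ ^ 2) ^ k) := by
              rw [mul_pow]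
              ring
          _ = d * ((ζ * conj ζ) * conj ζ) * conj (ζ ^ 2) ^ k := by
              rw [h4, one_pow, one_mul, map_pow conj ζ 2]
              ring
          _ = conj (conj d * (ζ * (ζ ^ 2) ^ k)) := by
              rw [h1, one_mul, map_mul, map_mul, Complex.conj_conj, map_pow conj (ζ ^ 2) k]
              ring
      have h3 : ζ * (d * ((ζ ^ 2) ^ a * conj (ζ ^ 2) ^ (a + k + 1)) +
          (-(conj d)) * (ζ ^ 2) ^ k) =
          conj (conj d * (ζ * (ζ ^ 2) ^ k)) - conj d * (ζ * (ζ ^ 2) ^ k) := by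
        rw [mul_add, h2]
        ring
      rw [h3, Complex.sub_re, Complex.conj_re, sub_self]
    · intro z
      have h1 := (hD z).add ((DB.pow k z).const_mul (-(conj (c / ((a + k : ℕ) + 1)))))
      simpa using h1

/-- **TZR** -/
theorem tzr : TzrStmt := by
  intro N c
  obtain ⟨u, hu⟩ := TG.sum N (fun a z => ∑ b ∈ Finset.range N, c a b * z ^ a * conj z ^ b)
    (fun a => TG.sum N (fun b z => c a b * z ^ a * conj z ^ b) (fun b => TG.mono a b (c a b)))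
  exact ⟨u, hu.1, fun z => (hu.2 z).dzb_eq⟩

end Pool.Agent.BCS.H51
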